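import Pool.Agent.H641R3.RG.MainS

/-!
# Nondeterministic read-once programs need exponentially many nodes to approximate 3-SAT

For every `n` there is a fixed system of `6656 n` clauses of three literals over `n` variables such
that every nondeterministic (syntactic) read-once branching program which reads the bits saying
which of the clauses are selected, accepts all satisfiable selections and rejects all selections of
which every assignment violates more than the fraction `2 ^ (-18)`, has at least
`2 ^ (n / 2 ^ 16) - 1` nodes besides the sink. About `6656 n 2 ^ n` nodes suffice to decide
satisfiability exactly.

Proof: for an assignment `α` consider the set of all clauses satisfied by `α`, and cut an accepting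
computation on it into `104` pieces, such that in no piece more than `1 / 103` of the clauses
violated by `α` are read; the pieces and the variables read at the cutting points give `208` parts.
All assignments with the same cutting points can be mixed: the program accepts the set of the
clauses which, if read in the part `t`, are satisfied by `α_t`. If `β` violates few of these
clauses, then for nearly every triple of variables, `β` agrees on the triple with `α_t`, where `t`
is the part in which the clause of this triple violated by `β` is read. At least `52` parts belong
in this way to at least `n` triples, which have more than `6 n / 103` variables, since the triples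
are chosen such that smaller sets of variables contain fewer than `n` of them. So for given `β` and
given exceptional triples only a fraction `2 ^ (-3 n)` of the choices of the `α_t` is possible, and
there are at most `2 ^ n` assignments `β` and `2 ^ n` sets of exceptional triples.
-/

set_option autoImplicit false

namespace Pool.Agent.Results.MP_87d05f_lc.ReadOnceGap

open Pool.Agent.H554R2.Sem Pool.Agent.H554R2.RK Pool.Agent.H641R3.RG

/-- The clause `(i, s)` has the three literals `e i r = s r` (the variable `e i r` has the value `s r`). -/
theorem result (n : ℕ) (hn : 1 ≤ n) : ∃ e : Fin (832 * n) → Fin 3 → Fin n,
    ∀ (N : ℕ) (φ : Fin N ≃ Fin (832 * n) × (Fin 3 → Bool)) (P : NBP (Fin N)), ReadK P 1 →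
    (∀ x, (∃ β, ∀ v, x v = true → ¬ Violates e β (φ v)) → Acc P x) →
    (∀ x, (∀ β, Nat.card {v // x v = true} <
      2 ^ 18 * Nat.card {v // x v = true ∧ Violates e β (φ v)}) → ¬ Acc P x) →
    2 ^ n ≤ (Fintype.card P.State + 1) ^ (2 ^ 16) :=
  mainS n hn

end Pool.Agent.Results.MP_87d05f_lc.ReadOnceGap
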