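import Mathlib
import Pool.Agent.H568R2.Defs
import Pool.Agent.H592R3.Defs
import Pool.Agent.H592R6.GapDefs
import Pool.Agent.H72.Gap.Main

/-!
The gap exponential time hypothesis in the model of randomised, non-uniform circuits of small depth,
with the optimal exponent: constraint satisfaction problems over `n` Boolean variables whose
constraints are given by truth tables of arity `w`, where `w` is at least a constant times
`t d log n`. Circuits of depth `d` need more than `2 ^ ((1 - ε) n)` gates to tell the satisfiable
ones from those where every assignment satisfies at most the fraction `(3 / 4) ^ t` of the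
constraints, and they are hard to tell apart on average. Exhaustive search has depth two and
`2 ^ n + 1` gates.

Proof: a random problem over `m` variables with values in `Fin (T ^ 2)` and random constraints of
constant arity that allow a fraction `T ^ (-3) / 2` of the values, against the same problem with a
planted solution. The average number of coordinates of a planted solution on which a circuit depends
is bounded by random restrictions and the expansion of the scopes (`Pool/Agent/H592R3` to
`Pool/Agent/H592R7`, starting files by helper592 and others, which contain the case without a gap).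
New here: the gap of the random problems is turned into a statement about truth tables over Boolean
variables (`Enc`, `Avg`), and amplified by conjunctions of `t` constraints, which circuits compute by
one more level of AND gates (`AndComp`, `Amp`); randomised circuits (`Rand`); exhaustive search
(`Brute`).
-/

namespace Pool.Agent.Results.MP_87d05f_lc.SmallDepthGap

open DomAC0 SmallDepth Pool.Agent.H72.Gap

open Classical in
/-- For `0 < ε < 1` there is `C` with the following property. Let `n ≥ 2`, `d, t ≥ 1` and
`C t d log n ≤ w ≤ n`. There are at most `n ^ t` scopes of `w` Boolean variables each, out of `n`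
variables, such that the following holds for the problems `x`, given by the bits of the truth tables
of the constraints with these scopes. (1) There are two probability distributions on problems. Those
in the support of `ν₁` are satisfiable. With probability at least `1 - 2 ^ (-(1 - ε) n / 10)` with
respect to `ν₀` every assignment satisfies at most the fraction `(3 / 4) ^ t` of the constraints.
The acceptance probabilities of every circuit with depth at most `d` and at most `2 ^ ((1 - ε) n)`
gates under the two distributions differ by at most `2 ^ (-w / (C t))`. (2) If a randomised circuit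
with depth at most `d` and at most `S` gates accepts each satisfiable problem and rejects each
problem where every assignment satisfies at most the fraction `(3 / 4) ^ t` of the constraints, with
probability at least two thirds, then `2 ^ ((1 - ε) n) < S`. (3) A circuit with depth at most two and
`2 ^ n + 1` gates tells exactly whether the problem is satisfiable. -/
theorem result (ε : ℝ) (hε : 0 < ε) (hε1 : ε < 1) : ∃ C : ℝ, 0 < C ∧
    ∀ n d t w : ℕ, 2 ≤ n → 1 ≤ d → 1 ≤ t → C * (t * (d * Real.log n)) ≤ w → w ≤ n →
    ∃ M : ℕ, 0 < M ∧ M ≤ n ^ t ∧ ∃ sc : Fin M → Fin w → Fin n,
      (∃ ν₀ ν₁ : ((Fin M × (Fin w → Bool)) → Bool) → ℝ,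
        ((∀ x, 0 ≤ ν₀ x) ∧ ∑ x, ν₀ x = 1) ∧ ((∀ x, 0 ≤ ν₁ x) ∧ ∑ x, ν₁ x = 1) ∧
        (∀ x, ν₁ x ≠ 0 → Satisfiable sc x) ∧
        (∑ x, ν₀ x * (if AtMost ((3 / 4) ^ t) sc x then 0 else 1)) ≤
          (2 : ℝ) ^ (-((1 - ε) * n / 10)) ∧
        ∀ K : Circuit (Fin M × (Fin w → Bool)), K.depth ≤ d → (K.size : ℝ) ≤ 2 ^ ((1 - ε) * n) →
          |(∑ x, ν₀ x * (if K.eval x = true then 1 else 0)) -
            ∑ x, ν₁ x * (if K.eval x = true then 1 else 0)| ≤
              (2 : ℝ) ^ (-((w : ℝ) / (C * t)))) ∧
      (∀ (R : RandCircuit (Fin M × (Fin w → Bool))) (S : ℕ), R.Bounded d S →
        (∀ x, Satisfiable sc x → R.Correct x True) →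
        (∀ x, AtMost ((3 / 4) ^ t) sc x → R.Correct x False) → (2 : ℝ) ^ ((1 - ε) * n) < S) ∧
      (∃ K : Circuit (Fin M × (Fin w → Bool)), K.depth ≤ 2 ∧ K.size = 2 ^ n + 1 ∧
        ∀ x, K.eval x = true ↔ Satisfiable sc x) :=
  main ε hε hε1

end Pool.Agent.Results.MP_87d05f_lc.SmallDepthGap
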